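import Pool.Agent.Helper31.CY.St1

/-!
# Project CY, module HRZ: horizontal points
-/

set_option autoImplicit false

open Set Topology Filter

namespace Pool.Agent.Helper14.CY

open Pool.Agent.Helper31.CY

/-- a function on a neighbourhood of `a ≥ 0` with derivative zero at the positive points is constant on the nonnegative points -/
private lemma const_of (f f' : ℝ → ℝ) (a ε : ℝ) (ha : 0 ≤ a)
    (hd : ∀ s : ℝ, |s - a| < ε → HasDerivAt f (f' s) s)
    (hz : ∀ s : ℝ, 0 < s → |s - a| < ε → f' s = 0) :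
    ∀ s : ℝ, 0 ≤ s → |s - a| < ε → f s = f a := by
  intro s hs hsa
  rcases lt_trichotomy s a with h | h | h
  · have hin : ∀ t ∈ Icc s a, |t - a| < ε := by
      intro t ht
      rw [abs_lt] at hsa ⊢
      exact ⟨by linarith [ht.1, hsa.1], by linarith [ht.2, abs_nonneg (s - a), hsa.1, hsa.2]⟩
    obtain ⟨c, hc, hce⟩ := exists_hasDerivAt_eq_slope f f' h
      (fun t ht => (hd t (hin t ht)).continuousAt.continuousWithinAt)
      (fun t ht => hd t (hin t (Ioo_subset_Icc_self ht)))
    have h0 : f' c = 0 := hz c (lt_of_le_of_lt hs hc.1) (hin c (Ioo_subset_Icc_self hc))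
    rw [h0] at hce
    have hne : a - s ≠ 0 := by linarith [sub_pos.mpr h] |> fun (h' : 0 < a - s) => ne_of_gt h'
    have := (div_eq_zero_iff.mp hce.symm).resolve_right hne
    linarith
  · rw [h]
  · have hin : ∀ t ∈ Icc a s, |t - a| < ε := by
      intro t ht
      rw [abs_lt] at hsa ⊢
      exact ⟨by linarith [ht.1, hsa.1, hsa.2], by linarith [ht.2, hsa.2]⟩
    obtain ⟨c, hc, hce⟩ := exists_hasDerivAt_eq_slope f f' h
      (fun t ht => (hd t (hin t ht)).continuousAt.continuousWithinAt)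
      (fun t ht => hd t (hin t (Ioo_subset_Icc_self ht)))
    have h0 : f' c = 0 := hz c (lt_of_le_of_lt ha hc.1) (hin c (Ioo_subset_Icc_self hc))
    rw [h0] at hce
    have hne : s - a ≠ 0 := by
      have : 0 < s - a := sub_pos.mpr h
      exact ne_of_gt this
    have := (div_eq_zero_iff.mp hce.symm).resolve_right hne
    linarith

theorem hHRZ (hIMP : StIMP) : StHRZ := by
  intro F V q hV hq hF h0 h1 h2 hq0 hP
  obtain ⟨W, W', W'', ε, hε, hWq, hbox, hs⟩ := hIMP F V q hV hq hF h0 h2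
  have hqq : (q.1, W q.1) = q := by rw [hWq]
  have hW'q : W' q.1 = 0 := by
    obtain ⟨_, _, _, _, hb, he, _⟩ := hs q.1 (by simpa using hε)
    rw [hqq] at hb he
    rw [h1, zero_add] at he
    exact (mul_eq_zero.mp he).resolve_left hb
  have hode : ∀ s : ℝ, 0 < s → |s - q.1| < ε → s * W'' s + W' s * (1 + W' s ^ 2) = 0 := by
    intro s hs0 hsq
    obtain ⟨hsV, hF0, _, _, hb, he, he2⟩ := hs s hsq
    have hp := hP (s, W s) hsV hs0 hF0
    unfold PODE at hp
    simp only at hp
    generalize D2 F (s, W s) = b at hb he he2 hp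
    have ha : D1 F (s, W s) = -(b * W' s) := by linarith
    rw [ha] at hp
    generalize D1 (D1 F) (s, W s) = f11 at he2 hp
    generalize D2 (D1 F) (s, W s) = f21 at he2 hp
    generalize D2 (D2 F) (s, W s) = f22 at he2 hp
    generalize W' s = u at he2 hp ⊢
    generalize W'' s = v at he2 ⊢
    have key : b ^ 3 * (s * v + u * (1 + u ^ 2)) = 0 := by
      linear_combination b ^ 2 * s * he2 - hp
    exact (mul_eq_zero.mp key).resolve_left (pow_ne_zero 3 hb)
  -- the first integral
  have hphi : ∀ s : ℝ, |s - q.1| < ε →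
      HasDerivAt (fun t => t * W' t / Real.sqrt (1 + W' t ^ 2))
        ((s * W'' s + W' s * (1 + W' s ^ 2)) / ((1 + W' s ^ 2) * Real.sqrt (1 + W' s ^ 2))) s := by
    intro s hsq
    obtain ⟨_, _, _, hd, _, _, _⟩ := hs s hsq
    have hpos : 0 < 1 + W' s ^ 2 := by positivity
    have hd1 : HasDerivAt (fun t => t * W' t) (1 * W' s + s * W'' s) s :=
      (hasDerivAt_id s).mul hd
    have hd2 : HasDerivAt (fun t => 1 + W' t ^ 2) (2 * W' s * W'' s) s := by
      have := (hd.pow 2).const_add 1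
      refine this.congr_deriv ?_
      norm_num
    have hd3 := hd2.sqrt hpos.ne'
    have hsq0 : Real.sqrt (1 + W' s ^ 2) ≠ 0 := (Real.sqrt_pos.mpr hpos).ne'
    have hd4 := hd1.div hd3 hsq0
    refine hd4.congr_deriv ?_
    have hss : Real.sqrt (1 + W' s ^ 2) ^ 2 = 1 + W' s ^ 2 := Real.sq_sqrt hpos.le
    generalize hr : Real.sqrt (1 + W' s ^ 2) = r at hsq0 hss ⊢
    rw [← hss]
    generalize W'' s = v
    generalize W' s = u at hss ⊢
    field_simp
    have hu : u ^ 2 = r ^ 2 - 1 := by linarith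
    linear_combination (-(s * v)) * hu
  have hphi0 : ∀ s : ℝ, 0 ≤ s → |s - q.1| < ε → s * W' s / Real.sqrt (1 + W' s ^ 2) = 0 := by
    intro s hs0 hsq
    have h := const_of (fun t => t * W' t / Real.sqrt (1 + W' t ^ 2))
      (fun s => (s * W'' s + W' s * (1 + W' s ^ 2)) / ((1 + W' s ^ 2) * Real.sqrt (1 + W' s ^ 2)))
      q.1 ε hq0 hphi (fun t ht htq => by simp only [hode t ht htq, zero_div]) s hs0 hsq
    simp only [hW'q, mul_zero, zero_div] at h
    exact h
  have hW0 : ∀ s : ℝ, 0 < s → |s - q.1| < ε → W' s = 0 := by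
    intro s hs0 hsq
    have hpos : 0 < 1 + W' s ^ 2 := by positivity
    have h := hphi0 s hs0.le hsq
    have h' := (div_eq_zero_iff.mp h).resolve_right (Real.sqrt_pos.mpr hpos).ne'
    exact (mul_eq_zero.mp h').resolve_left hs0.ne'
  refine ⟨ε, hε, ?_⟩
  intro x hx hx0
  have hx1 : |x.1 - q.1| < ε := hx.1
  have hWx : W x.1 = q.2 := by
    rw [← hWq]
    exact const_of W W' q.1 ε hq0 (fun s h => (hs s h).2.2.1) hW0 x.1 hx0 hx1
  obtain ⟨hxV, hiff⟩ := hbox x hx
  rw [hWx] at hiff
  exact ⟨hxV, hiff⟩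

end Pool.Agent.Helper14.CY
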